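import Pool.Agent.W638.RC.AS0b

/-!
# Project RC, part AS0: construction of the isometry from the pieces
-/

set_option autoImplicit false

namespace Pool.Agent.W638.RC0

open Matrix Pool.Agent.W661.RC
open scoped ComplexOrder

lemma psd_sum {ι : Type} {d : ℕ} (s : Finset ι) (f : ι → Mt d)
    (h : ∀ i ∈ s, (f i).PosSemidef) : (∑ i ∈ s, f i).PosSemidef :=
  Finset.sum_induction f Matrix.PosSemidef (fun _ _ ha hb => ha.add hb)
    Matrix.PosSemidef.zero h

lemma conj_psd {d : ℕ} (A P : Mt d) (hP : IsPr P) : (A * P * Aᴴ).PosSemidef := by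
  have e : A * P * Aᴴ = (A * P) * (A * P)ᴴ := by
    rw [conjTranspose_mul, hP.1, ← Matrix.mul_assoc, Matrix.mul_assoc A P P, hP.2]
  rw [e]
  exact Matrix.posSemidef_self_mul_conjTranspose _

/-- Columns of a basis. -/
lemma exists_subbasis {d : ℕ} (q : Mt d) (hq : IsPr q) (l : ℕ) (hl : (l : ℝ) ≤ tr q) :
    ∃ b : Matrix (Fin d) (Fin l) ℂ, bᴴ * b = 1 ∧ q * b = b := by
  obtain ⟨r, b, hb1, hb2, hb3⟩ := exists_basis q hq
  have hlr : l ≤ r := by
    rw [hb3] at hl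
    exact_mod_cast hl
  refine ⟨b.submatrix id (Fin.castLE hlr), ?_, ?_⟩
  · ext i j
    have h1 : ((b.submatrix id (Fin.castLE hlr))ᴴ * b.submatrix id (Fin.castLE hlr)) i j
        = (bᴴ * b) (Fin.castLE hlr i) (Fin.castLE hlr j) := by
      simp [Matrix.mul_apply]
    rw [h1, hb1, Matrix.one_apply, Matrix.one_apply]
    congr 1
    simp only [eq_iff_iff]
    constructor
    · intro h; exact Fin.castLE_injective hlr h
    · intro h; rw [h]
  · have h2 : q * b = b := by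
      rw [← hb2, Matrix.mul_assoc, hb1, Matrix.mul_one]
    ext i j
    have h3 := congrFun (congrFun h2 i) (Fin.castLE hlr j)
    simpa [Matrix.mul_apply] using h3

section numer

lemma n_sq {X : ℝ} (h0 : 0 < X) (h : X ≤ 0.12) : X ^ 2 ≤ 0.0144 := by nlinarith

lemma n_x2 {X : ℝ} (h0 : 0 < X) (h : X ≤ 0.12) : X ^ 2 ≤ 0.12 * X := by nlinarith

lemma n_x4 {X : ℝ} (h0 : 0 < X) (h : X ≤ 0.12) : X ^ 4 ≤ 0.0144 * X ^ 2 := by
  have h1 := n_sq h0 h
  have h2 : X ^ 4 = X ^ 2 * X ^ 2 := by ring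
  rw [h2]
  exact mul_le_mul_of_nonneg_right h1 (by positivity)

lemma n_x4' {X : ℝ} (h0 : 0 < X) (h : X ≤ 0.12) : X ^ 4 ≤ 0.01 * X := by
  have h1 := n_x4 h0 h
  have h2 := n_x2 h0 h
  linarith

lemma n_inv {X ζ : ℝ} (h0 : 0 < X) (hζ : ζ ≤ X ^ 4) : 1 / X ^ 2 * ζ ≤ X ^ 2 := by
  rw [one_div, inv_mul_le_iff₀ (by positivity)]
  have : X ^ 2 * X ^ 2 = X ^ 4 := by ring
  rw [this]; exact hζ

lemma n_tot {X ζ : ℝ} (h0 : 0 < X) (h : X ≤ 0.12) (hζ0 : 0 ≤ ζ) (hζ : ζ ≤ X ^ 4) :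
    (1 + X ^ 2) * (1 + ζ) + ζ + 1 / X ^ 2 * ζ ≤ 1 + 2.1 * X ^ 2 := by
  have h1 := n_x4 h0 h
  have h2 := n_inv h0 hζ
  have h3 := n_sq h0 h
  have h4 : X ^ 2 * ζ ≤ 0.0144 * ζ := mul_le_mul_of_nonneg_right h3 hζ0
  have h5 : 0 ≤ X ^ 2 := by positivity
  linarith

lemma n_half {X : ℝ} (h0 : 0 < X) (h : X ≤ 0.12) : 1 - 6 * X ≤ (1 - 4.2 * X) * (1 - 2 * X ^ 4) := by
  have h1 := n_x4' h0 h
  have h2 : 0 ≤ X * X ^ 4 := by positivity
  have h3 : (1 - 4.2 * X) * (1 - 2 * X ^ 4) = 1 - 4.2 * X - 2 * X ^ 4 + 8.4 * (X * X ^ 4) := by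
    ring
  rw [h3]
  linarith

lemma n_low {X d L : ℝ} (_h0 : 0 < X) (hd : 0 < d) (h : (1 - X ^ 4) * d ≤ (1 + X ^ 4) * L) :
    (1 - 2 * X ^ 4) * d ≤ L := by
  by_contra hcon
  push Not at hcon
  have h3 : (1 + X ^ 4) * L < (1 + X ^ 4) * ((1 - 2 * X ^ 4) * d) :=
    mul_lt_mul_of_pos_left hcon (by positivity)
  have h4 : (1 + X ^ 4) * ((1 - 2 * X ^ 4) * d) ≤ (1 - X ^ 4) * d := by
    have h5 : (1 + X ^ 4) * (1 - 2 * X ^ 4) ≤ 1 - X ^ 4 := by
      have : 0 ≤ (X ^ 4) ^ 2 := by positivity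
      have e : (1 + X ^ 4) * (1 - 2 * X ^ 4) = 1 - X ^ 4 - 2 * (X ^ 4) ^ 2 := by ring
      linarith
    have h6 := mul_le_mul_of_nonneg_right h5 hd.le
    linarith
  linarith

lemma n_cut {X d L : ℝ} (h0 : 0 < X) (h : X ≤ 0.12) (hd : 0 < d)
    (hL : L ≤ (1 + 2.1 * X ^ 2) * d) : 4.2 * X * L ≤ 5 * X * d := by
  have h1 := n_sq h0 h
  have h4 : 4.2 * X * L ≤ 4.2 * X * ((1 + 2.1 * X ^ 2) * d) :=
    mul_le_mul_of_nonneg_left hL (by positivity)
  have h5 : 4.2 * X * ((1 + 2.1 * X ^ 2) * d) = (4.2 * (1 + 2.1 * X ^ 2)) * (X * d) := by ring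
  have h6 : (4.2 * (1 + 2.1 * X ^ 2)) * (X * d) ≤ 5 * (X * d) :=
    mul_le_mul_of_nonneg_right (by linarith) (by positivity)
  linarith

end numer

theorem main (hN : NisP) (hC : CmbP) : As0P := by
  intro d k C η δ S ζ κ0 n a q v c hd hζ hζ1 hκ hκ1 hD hv hqv htr1 htr2 hen
  classical
  -- constants
  set X : ℝ := √(√(ζ + κ0)) with hX
  have hZ : 0 < ζ + κ0 := by linarith
  have hX0 : 0 < X := Real.sqrt_pos.2 (Real.sqrt_pos.2 hZ)
  have hX2 : X ^ 2 = √(ζ + κ0) := Real.sq_sqrt (Real.sqrt_nonneg _)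
  have hX4 : X ^ 4 = ζ + κ0 := by
    have : X ^ 4 = (X ^ 2) ^ 2 := by ring
    rw [this, hX2, Real.sq_sqrt hZ.le]
  have hX12 : X ≤ 0.12 := by
    by_contra h
    push Not at h
    have h1 : (0.12 : ℝ) ^ 4 < X ^ 4 := pow_lt_pow_left₀ h (by norm_num) (by norm_num)
    rw [hX4] at h1
    norm_num at h1
    linarith
  have hζX : ζ ≤ X ^ 4 := by rw [hX4]; linarith
  have hκX : κ0 ≤ X ^ 4 := by rw [hX4]; linarith
  have hd0 : (0 : ℝ) < d := by exact_mod_cast hd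
  have hk0 : (0 : ℝ) ≤ k := Nat.cast_nonneg k
  -- unitaries
  have hu := S.hu
  have hu' : ∀ s, S.u s * (S.u s)ᴴ = 1 := fun s => mul_eq_one_comm.1 (hu s)
  -- ranks
  have hr : ∀ κ, ∃ r : ℕ, tr (q κ) = r := by
    intro κ
    obtain ⟨r, b, -, -, h⟩ := exists_basis (q κ) (hD.pr κ)
    exact ⟨r, h⟩
  choose r hr using hr
  -- (1) the total size
  have hsa : ∑ i, hs (a i) ≤ (1 + ζ) * d := by
    have h1 := tr_nonneg hD.sum
    rw [tr_sub, tr_sum] at h1
    have h2 : tr (((1 + ζ : ℝ) : ℂ) • (1 : Mt d)) = (1 + ζ) * d := by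
      simp [tr, Matrix.trace_smul, Matrix.trace_one]
    rw [h2] at h1
    simp only [hs_eq_tr']
    linarith
  have hsq : ∀ i, hs (q i) = tr (q i) := fun i => isPr_hs (hD.pr i)
  have hX2p : 0 < X ^ 2 := by positivity
  have hX2s : X ^ 2 ≤ 0.0144 := n_sq hX0 hX12
  have hX4s : X ^ 4 ≤ 0.0144 * X ^ 2 := n_x4 hX0 hX12
  have hζX2 : 1 / X ^ 2 * ζ ≤ X ^ 2 := n_inv hX0 hζX
  have hS1 : ∑ i, tr (q i) ≤ (1 + 2.1 * X ^ 2) * d := by
    have h1 : ∀ i, tr (q i) ≤ (1 + X ^ 2) * hs (a i) + (1 + 1 / X ^ 2) * hs (a i - q i) := by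
      intro i
      rw [← hsq i]
      have := hs_add_le (a i) (q i - a i) (X ^ 2) hX2p
      rw [add_sub_cancel, hs_sub_comm (q i) (a i)] at this
      exact this
    have h2 : ∑ i, tr (q i) ≤ (1 + X ^ 2) * ∑ i, hs (a i)
        + (1 + 1 / X ^ 2) * ∑ i, hs (a i - q i) := by
      rw [Finset.mul_sum, Finset.mul_sum, ← Finset.sum_add_distrib]
      exact Finset.sum_le_sum fun i _ => h1 i
    have h3 := hD.near
    have h4 : (1 + X ^ 2) * ∑ i, hs (a i) ≤ (1 + X ^ 2) * ((1 + ζ) * d) :=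
      mul_le_mul_of_nonneg_left hsa (by positivity)
    have h5 : (1 + 1 / X ^ 2) * ∑ i, hs (a i - q i) ≤ (1 + 1 / X ^ 2) * (ζ * d) :=
      mul_le_mul_of_nonneg_left h3 (by positivity)
    have h6 : (1 + X ^ 2) * ((1 + ζ) * d) + (1 + 1 / X ^ 2) * (ζ * d)
        = ((1 + X ^ 2) * (1 + ζ) + ζ + 1 / X ^ 2 * ζ) * d := by ring
    have h7 : (1 + X ^ 2) * (1 + ζ) + ζ + 1 / X ^ 2 * ζ ≤ 1 + 2.1 * X ^ 2 :=
      n_tot hX0 hX12 hζ.le hζX
    calc ∑ i, tr (q i) ≤ ((1 + X ^ 2) * (1 + ζ) + ζ + 1 / X ^ 2 * ζ) * d := by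
          rw [← h6]; linarith
      _ ≤ _ := mul_le_mul_of_nonneg_right h7 hd0.le
  -- the sum L
  set L : ℝ := ((∑ i, r (c i) : ℕ) : ℝ) with hL
  have hLsum : L = ∑ i, tr (q (c i)) := by
    rw [hL]; push_cast
    exact Finset.sum_congr rfl fun i _ => (hr (c i)).symm
  have hL1 : L ≤ (1 + 2.1 * X ^ 2) * d := by
    rw [hLsum]
    exact (Finset.sum_le_sum fun i _ => htr1 i).trans hS1
  have hL2 : (1 - ζ) * d ≤ (1 + κ0) * L := by
    rw [hLsum, Finset.mul_sum]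
    exact hD.tot.trans (Finset.sum_le_sum fun i _ => htr2 i)
  have hL0 : 0 ≤ L := by rw [hL]; positivity
  -- (2) reduce
  obtain ⟨I, l, hlr, hlI, hlow⟩ := hC (Fin n) (Fin n) c r d (4.2 * X) (by positivity)
    (by linarith) (by
      refine hL1.trans (mul_le_mul_of_nonneg_right ?_ hd0.le)
      have : (4.2 * X) ^ 2 / 8 = 2.205 * X ^ 2 := by ring
      rw [this]
      linarith)
  set L' : ℝ := ((∑ i ∈ I, l (c i) : ℕ) : ℝ) with hL'
  have hL'd : L' ≤ d := by rw [hL']; exact_mod_cast hlI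
  have hL'0 : 0 ≤ L' := by rw [hL']; positivity
  rw [← hL] at hlow
  have hdL' : d - L' ≤ 6 * X * d := by
    have h1 : (1 - 2 * X ^ 4) * d ≤ L := by
      have h2 : (1 - X ^ 4) * d ≤ (1 + X ^ 4) * L := by
        refine le_trans (mul_le_mul_of_nonneg_right ?_ hd0.le) (hL2.trans ?_)
        · linarith
        · exact mul_le_mul_of_nonneg_right (by linarith) hL0
      exact n_low hX0 hd0 h2
    have h5 : (1 - 4.2 * X) * ((1 - 2 * X ^ 4) * d) ≤ L' :=
      (mul_le_mul_of_nonneg_left h1 (by linarith)).trans hlow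
    have h7 : 1 - 6 * X ≤ (1 - 4.2 * X) * (1 - 2 * X ^ 4) := n_half hX0 hX12
    have h8 : (1 - 6 * X) * d ≤ (1 - 4.2 * X) * (1 - 2 * X ^ 4) * d :=
      mul_le_mul_of_nonneg_right h7 hd0.le
    linarith
  -- difference of the ranks
  have hT : ∑ i ∈ I, (tr (q (c i)) - l (c i)) ≤ 5 * X * d := by
    have h1 : ∑ i ∈ I, (tr (q (c i)) - l (c i)) = ∑ i ∈ I, tr (q (c i)) - L' := by
      rw [Finset.sum_sub_distrib, hL']; push_cast; ring
    have h2 : ∑ i ∈ I, tr (q (c i)) ≤ L := by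
      rw [hLsum]
      exact Finset.sum_le_sum_of_subset_of_nonneg (Finset.subset_univ _)
        fun i _ _ => (hD.nz (c i)).le
    have h3 : L - L' ≤ 4.2 * X * L := by linarith
    have h4 := n_cut hX0 hX12 hd0 hL1
    linarith
  have hTi : ∀ κ, (0 : ℝ) ≤ tr (q κ) - l κ := by
    intro κ
    rw [hr κ]
    have : (l κ : ℝ) ≤ r κ := by exact_mod_cast hlr κ
    linarith
  -- (3) bases
  have hb : ∀ κ, ∃ b : Matrix (Fin d) (Fin (l κ)) ℂ, bᴴ * b = 1 ∧ q κ * b = b := fun κ =>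
    exists_subbasis (q κ) (hD.pr κ) (l κ) (by linarith [hTi κ])
  choose b hb1 hb2 using hb
  -- (4) the matrix Y
  let c' : I → Fin n := fun i : I => c i
  let Y : Matrix (Fin d) (Jx c' l) ℂ := fun x y => (a y.1 * v y.1 * b (c' y.1)) x y.2
  have hYb : ∀ i : I, blk Y i = a i * v i * b (c i) := fun i => rfl
  have hcard : (Fintype.card (Jx c' l) : ℝ) = L' := by
    rw [hL', Fintype.card_sigma]
    simp only [Fintype.card_fin]
    exact congrArg Nat.cast (Finset.sum_coe_sort I fun i => l (c i))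
  have hE : ∀ i, IsPr ((v i * b (c i)) * (v i * b (c i))ᴴ) := by
    intro i
    have h1 : (v i * b (c i))ᴴ * (v i * b (c i)) = 1 := by
      rw [conjTranspose_mul, Matrix.mul_assoc, ← Matrix.mul_assoc (v i)ᴴ, hv, hb2, hb1]
    refine ⟨by rw [conjTranspose_mul, conjTranspose_conjTranspose], ?_⟩
    rw [Matrix.mul_assoc (v i * b (c i)), ← Matrix.mul_assoc (v i * b (c i))ᴴ, h1, Matrix.one_mul]
  have hYY : Y * Yᴴ = ∑ i ∈ I, (a i * v i * b (c i)) * (a i * v i * b (c i))ᴴ := by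
    rw [← Finset.sum_coe_sort I fun i => (a i * v i * b (c i)) * (a i * v i * b (c i))ᴴ]
    ext x y
    rw [Matrix.mul_apply, Matrix.sum_apply]
    rw [Fintype.sum_sigma]
    refine Finset.sum_congr rfl fun i _ => ?_
    rw [Matrix.mul_apply]
    rfl
  have hYle : Le (Y * Yᴴ) (((1 + ζ : ℝ) : ℂ) • 1) := by
    unfold Le
    have e1 : ((1 + ζ : ℝ) : ℂ) • (1 : Mt d) - Y * Yᴴ
        = (((1 + ζ : ℝ) : ℂ) • (1 : Mt d) - ∑ i, a i * (a i)ᴴ)
          + (∑ i ∈ Iᶜ, a i * (a i)ᴴ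
          + ∑ i ∈ I, a i * (1 - (v i * b (c i)) * (v i * b (c i))ᴴ) * (a i)ᴴ) := by
      rw [hYY]
      have h1 : ∑ i ∈ I, a i * (1 - (v i * b (c i)) * (v i * b (c i))ᴴ) * (a i)ᴴ
          = ∑ i ∈ I, a i * (a i)ᴴ
            - ∑ i ∈ I, (a i * v i * b (c i)) * (a i * v i * b (c i))ᴴ := by
        rw [← Finset.sum_sub_distrib]
        refine Finset.sum_congr rfl fun i _ => ?_
        rw [Matrix.mul_sub, Matrix.mul_one, Matrix.sub_mul, Matrix.mul_assoc (a i) (v i),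
          conjTranspose_mul (a i)]
        simp only [Matrix.mul_assoc]
      rw [h1, ← Finset.sum_compl_add_sum I (fun i => a i * (a i)ᴴ)]
      abel
    rw [e1]
    refine hD.sum.add ((psd_sum _ _ fun i _ => Matrix.posSemidef_self_mul_conjTranspose _).add
      (psd_sum _ _ fun i _ => ?_))
    exact conj_psd _ _ (isPr_compl (hE i))
  obtain ⟨Θ, hΘ, hΘY⟩ := hN d (Jx c' l) Y ζ hζ.le hYle (by
    have : (Fintype.card (Jx c' l) : ℝ) ≤ d := by rw [hcard]; exact hL'd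
    exact_mod_cast this)
  rw [hcard] at hΘY
  -- lower bound of hs Y
  have hvb : ∀ i, hs (v i * b (c i)) = l (c i) := by
    intro i
    rw [hs_eq_tr, conjTranspose_mul, Matrix.mul_assoc, ← Matrix.mul_assoc (v i)ᴴ, hv, hb2, hb1,
      tr_one, Fintype.card_fin]
  have hnearb : ∀ i, hs (a i * v i * b (c i) - v i * b (c i)) ≤ hs (a i - q i) := by
    intro i
    have e : a i * v i * b (c i) - v i * b (c i) = (a i - q i) * (v i * b (c i)) := by
      rw [Matrix.sub_mul, ← Matrix.mul_assoc, ← Matrix.mul_assoc, hqv]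
    rw [e]
    exact hs_mul_le _ _ (hE i)
  have hnearI : ∑ i : I, hs (a i - q i) ≤ ζ * d := by
    rw [Finset.sum_coe_sort I fun i => hs (a i - q i)]
    refine le_trans (Finset.sum_le_sum_of_subset_of_nonneg (Finset.subset_univ _)
      fun i _ _ => hs_nonneg _) hD.near
  have hsumL' : ∑ i : I, (l (c i) : ℝ) = L' := by
    rw [Finset.sum_coe_sort I fun i => (l (c i) : ℝ), hL']; push_cast; rfl
  have hYlow : L' - 2 * X ^ 2 * d ≤ hs Y := by
    rw [hs_blk]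
    have h1 : ∀ i : I, (1 - X ^ 2) * (l (c i) : ℝ) - 1 / X ^ 2 * hs (a i - q i)
        ≤ hs (blk Y i) := by
      intro i
      rw [hYb]
      have h2 := hs_add_ge (v i * b (c i)) (a i * v i * b (c i) - v i * b (c i)) (X ^ 2) hX2p
      rw [add_sub_cancel, hvb] at h2
      have h3 : 1 / X ^ 2 * hs (a i * v i * b (c i) - v i * b (c i))
          ≤ 1 / X ^ 2 * hs (a i - q i) :=
        mul_le_mul_of_nonneg_left (hnearb i) (by positivity)
      linarith
    have h4 : (1 - X ^ 2) * ∑ i : I, (l (c i) : ℝ) - 1 / X ^ 2 * ∑ i : I, hs (a i - q i)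
        ≤ ∑ i : I, hs (blk Y i) := by
      rw [Finset.mul_sum, Finset.mul_sum, ← Finset.sum_sub_distrib]
      exact Finset.sum_le_sum fun i _ => h1 i
    rw [hsumL'] at h4
    have h5 : 1 / X ^ 2 * ∑ i : I, hs (a i - q i) ≤ X ^ 2 * d := by
      refine (mul_le_mul_of_nonneg_left hnearI (by positivity)).trans ?_
      rw [← mul_assoc]
      exact mul_le_mul_of_nonneg_right hζX2 hd0.le
    have h6 : X ^ 2 * L' ≤ X ^ 2 * d := mul_le_mul_of_nonneg_left hL'd hX2p.le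
    linarith
  have hΘY2 : hs (Θ - Y) ≤ 2.1 * X ^ 2 * d := by
    have h1 : 2 * ζ * L' ≤ 2 * X ^ 4 * d := by
      have := mul_le_mul hζX hL'd hL'0 (by positivity)
      linarith
    have h2 : X ^ 4 * d ≤ 0.0144 * X ^ 2 * d := mul_le_mul_of_nonneg_right hX4s hd0.le
    have h3 : 0 ≤ X ^ 2 * d := by positivity
    linarith
  have hR : ∑ i : I, hs (blk Θ i - v i * b (c i)) ≤ 5 * X ^ 2 * d := by
    have h1 : ∀ i : I, hs (blk Θ i - v i * b (c i))
        ≤ 2 * hs (blk (Θ - Y) i) + 2 * hs (a i - q i) := by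
      intro i
      have e : blk Θ i - v i * b (c i) = blk (Θ - Y) i + (blk Y i - v i * b (c i)) := by
        rw [blk_sub]; abel
      rw [e]
      refine (hs_add_le2 _ _).trans ?_
      rw [hYb]
      linarith [hnearb i]
    have h2 : ∑ i : I, hs (blk Θ i - v i * b (c i))
        ≤ 2 * ∑ i : I, hs (blk (Θ - Y) i) + 2 * ∑ i : I, hs (a i - q i) := by
      rw [Finset.mul_sum, Finset.mul_sum, ← Finset.sum_add_distrib]
      exact Finset.sum_le_sum fun i _ => h1 i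
    rw [← hs_blk] at h2
    have h3 : ζ * d ≤ 0.0144 * X ^ 2 * d := mul_le_mul_of_nonneg_right (hζX.trans hX4s) hd0.le
    have h4 : 0 ≤ X ^ 2 * d := by positivity
    linarith
  -- sums over the pieces
  have hTI : ∑ i : I, (tr (q (c i)) - l (c i)) ≤ 5 * X * d := by
    rw [Finset.sum_coe_sort I fun i => (tr (q (c i)) - (l (c i) : ℝ))]
    exact hT
  have htrI : ∑ i : I, tr (q (c i)) ≤ 1.1 * d := by
    rw [Finset.sum_coe_sort I fun i => tr (q (c i))]
    have h2 : ∑ i ∈ I, tr (q (c i)) ≤ L := by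
      rw [hLsum]
      exact Finset.sum_le_sum_of_subset_of_nonneg (Finset.subset_univ _)
        fun i _ _ => (hD.nz (c i)).le
    have h3 : (1 + 2.1 * X ^ 2) * d ≤ 1.1 * d :=
      mul_le_mul_of_nonneg_right (by linarith) hd0.le
    linarith
  have henI : ∑ i : I, en S.u (v i) ≤ 1.1 * X ^ 4 * d := by
    calc ∑ i : I, en S.u (v i) ≤ ∑ i : I, κ0 * tr (q (c i)) :=
          Finset.sum_le_sum fun i _ => hen i
      _ = κ0 * ∑ i : I, tr (q (c i)) := by rw [Finset.mul_sum]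
      _ ≤ X ^ 4 * (1.1 * d) := mul_le_mul hκX htrI
          (Finset.sum_nonneg fun i _ => (hD.nz (c i)).le) (by positivity)
      _ = _ := by ring
  have henQ : ∑ i : I, en S.u (q (c i)) ≤ 1.1 * X ^ 4 * d := by
    calc ∑ i : I, en S.u (q (c i)) ≤ ∑ i : I, ζ * tr (q (c i)) :=
          Finset.sum_le_sum fun i _ => hD.inv (c i)
      _ = ζ * ∑ i : I, tr (q (c i)) := by rw [Finset.mul_sum]
      _ ≤ X ^ 4 * (1.1 * d) := mul_le_mul hζX htrI
          (Finset.sum_nonneg fun i _ => (hD.nz (c i)).le) (by positivity)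
      _ = _ := by ring
  have hX4b : X ^ 4 ≤ 0.01 * X := n_x4' hX0 hX12
  have hX2b : X ^ 2 ≤ 0.12 * X := n_x2 hX0 hX12
  have hXd : 0 < X * d := by positivity
  have hX4d : X ^ 4 * d ≤ 0.01 * (X * d) := by
    have := mul_le_mul_of_nonneg_right hX4b hd0.le
    linarith
  have hX2d : X ^ 2 * d ≤ 0.12 * (X * d) := by
    have := mul_le_mul_of_nonneg_right hX2b hd0.le
    linarith
  -- (5) general
  have key5 : ∀ w : Fin k → Mt d, (∀ s, w s * (w s)ᴴ = 1) → (∀ s, (w s)ᴴ * w s = 1) →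
      (∀ i : I, ∑ s, hs (w s * v i - v i * w s) = en S.u (v i)) →
      ∑ s, hs (w s * Θ - Θ * Ut c' l b (w s)) ≤ 1000 * (k + 1) * X * d := by
    intro w hw hw' hwe
    have h1 : ∀ s, hs (w s * Θ - Θ * Ut c' l b (w s))
        ≤ ∑ i : I, 4 * (2 * hs (blk Θ i - v i * b (c i)) + hs (w s * v i - v i * w s)
          + (tr (q (c i)) - l (c i))) := by
      intro s
      rw [hs_blk]
      refine Finset.sum_le_sum fun i _ => ?_
      rw [blk_sub, blk_mul_left, blk_mul_Ut]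
      exact est5 (w s) (q (c i)) (v i) (b (c i)) (blk Θ i) (hw s) (hw' s) (hD.pr _) (hv i)
        (hb1 _) (hb2 _)
    refine (Finset.sum_le_sum fun s _ => h1 s).trans ?_
    rw [Finset.sum_comm]
    have h2 : ∀ i : I, ∑ s : Fin k, 4 * (2 * hs (blk Θ i - v i * b (c i))
        + hs (w s * v i - v i * w s) + (tr (q (c i)) - l (c i)))
        = 8 * k * hs (blk Θ i - v i * b (c i)) + 4 * en S.u (v i)
          + 4 * k * (tr (q (c i)) - l (c i)) := by
      intro i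
      rw [← Finset.mul_sum, Finset.sum_add_distrib, Finset.sum_add_distrib, hwe i]
      simp only [Finset.sum_const, Finset.card_univ, Fintype.card_fin, nsmul_eq_mul]
      ring
    rw [Finset.sum_congr rfl fun i _ => h2 i, Finset.sum_add_distrib, Finset.sum_add_distrib,
      ← Finset.mul_sum, ← Finset.mul_sum, ← Finset.mul_sum]
    have h3 : 8 * (k : ℝ) * ∑ i : I, hs (blk Θ i - v i * b (c i)) ≤ 8 * k * (5 * X ^ 2 * d) :=
      mul_le_mul_of_nonneg_left hR (by positivity)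
    have h4 : 4 * (k : ℝ) * ∑ i : I, (tr (q (c i)) - l (c i)) ≤ 4 * k * (5 * X * d) :=
      mul_le_mul_of_nonneg_left hTI (by positivity)
    have h5 : 8 * (k : ℝ) * (5 * X ^ 2 * d) ≤ 8 * k * (5 * (0.12 * (X * d))) :=
      mul_le_mul_of_nonneg_left (by linarith) (by positivity)
    have h6 : 0 ≤ (k : ℝ) * (X * d) := by positivity
    linarith
  -- (6) general
  have key6 : ∀ w : Fin k → Mt d, (∀ s, w s * (w s)ᴴ = 1) → (∀ s, (w s)ᴴ * w s = 1) →
      (∀ i : I, ∑ s, hs (w s * q (c i) - q (c i) * w s) = en S.u (q (c i))) →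
      ∑ s, ∑ i : I, hs (w s * b (c i) - b (c i) * ((b (c i))ᴴ * w s * b (c i)))
        ≤ 1000 * (k + 1) * X * d := by
    intro w hw hw' hwe
    have h1 : ∀ s, ∀ i : I, hs (w s * b (c i) - b (c i) * ((b (c i))ᴴ * w s * b (c i)))
        ≤ 2 * hs (w s * q (c i) - q (c i) * w s) + 2 * (tr (q (c i)) - l (c i)) := fun s i =>
      est6 (w s) (q (c i)) (b (c i)) (hw s) (hw' s) (hD.pr _) (hb1 _) (hb2 _)
    refine (Finset.sum_le_sum fun s _ => Finset.sum_le_sum fun i _ => h1 s i).trans ?_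
    rw [Finset.sum_comm]
    have h2 : ∀ i : I, ∑ s : Fin k, (2 * hs (w s * q (c i) - q (c i) * w s)
        + 2 * (tr (q (c i)) - l (c i)))
        = 2 * en S.u (q (c i)) + 2 * k * (tr (q (c i)) - l (c i)) := by
      intro i
      rw [Finset.sum_add_distrib, ← Finset.mul_sum, hwe i]
      simp only [Finset.sum_const, Finset.card_univ, Fintype.card_fin, nsmul_eq_mul]
      ring
    rw [Finset.sum_congr rfl fun i _ => h2 i, Finset.sum_add_distrib,
      ← Finset.mul_sum, ← Finset.mul_sum]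
    have h4 : 2 * (k : ℝ) * ∑ i : I, (tr (q (c i)) - l (c i)) ≤ 2 * k * (5 * X * d) :=
      mul_le_mul_of_nonneg_left hTI (by positivity)
    have h6 : 0 ≤ (k : ℝ) * (X * d) := by positivity
    linarith
  refine ⟨I, l, b, Θ, hΘ, hb1, hb2, ?_, ?_, ?_, ?_, ?_⟩
  · rw [hcard]
    linarith
  · exact key5 S.u hu' hu fun i => rfl
  · have := key5 (fun s => (S.u s)ᴴ) (fun s => by simpa using hu s) (fun s => by simpa using hu' s)
      (fun i => Finset.sum_congr rfl fun s _ => hs_comm_conj _ _ (hu s) (hu' s))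
    simp only [Ut_conjT]
    exact this
  · exact key6 S.u hu' hu fun i => rfl
  · exact key6 (fun s => (S.u s)ᴴ) (fun s => by simpa using hu s) (fun s => by simpa using hu' s)
      (fun i => Finset.sum_congr rfl fun s _ => hs_comm_conj _ _ (hu s) (hu' s))

end Pool.Agent.W638.RC0
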