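import Pool.Agent.W661.RC.Stm2

/-!
# Project RC, part AS0: basic lemmas on the Hilbert-Schmidt norm
-/

set_option autoImplicit false

namespace Pool.Agent.W638.RC0

open Matrix Pool.Agent.W661.RC
open scoped ComplexOrder

section basic

variable {m n k : Type} [Fintype m] [Fintype n] [Fintype k]

lemma hs_nonneg (x : Matrix m n ℂ) : 0 ≤ hs x :=
  Finset.sum_nonneg fun _ _ => Finset.sum_nonneg fun _ _ => by positivity

lemma hs_conjT (x : Matrix m n ℂ) : hs xᴴ = hs x := by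
  unfold hs
  rw [Finset.sum_comm]
  simp [conjTranspose_apply]

lemma hs_eq_tr (x : Matrix m n ℂ) : hs x = tr (xᴴ * x) := by
  unfold hs tr
  rw [Finset.sum_comm]
  simp only [Matrix.trace, Matrix.diag_apply, Matrix.mul_apply, conjTranspose_apply,
    Complex.re_sum]
  refine Finset.sum_congr rfl fun i _ => Finset.sum_congr rfl fun j _ => ?_
  rw [Complex.star_def, Complex.conj_mul']
  norm_cast

lemma hs_eq_tr' (x : Matrix m n ℂ) : hs x = tr (x * xᴴ) := by
  rw [← hs_conjT, hs_eq_tr, conjTranspose_conjTranspose]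

lemma tr_add (x y : Matrix n n ℂ) : tr (x + y) = tr x + tr y := by
  simp [tr, Matrix.trace_add]

lemma tr_sub (x y : Matrix n n ℂ) : tr (x - y) = tr x - tr y := by
  simp [tr, Matrix.trace_sub]

lemma tr_one [DecidableEq n] : tr (1 : Matrix n n ℂ) = Fintype.card n := by
  simp [tr, Matrix.trace_one]

lemma tr_sum {ι : Type} (s : Finset ι) (f : ι → Matrix n n ℂ) :
    tr (∑ i ∈ s, f i) = ∑ i ∈ s, tr (f i) := by
  simp [tr, Matrix.trace_sum]

lemma tr_mul_comm (x : Matrix m n ℂ) (y : Matrix n m ℂ) : tr (x * y) = tr (y * x) := by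
  simp only [tr]; rw [Matrix.trace_mul_comm]

lemma tr_nonneg [DecidableEq n] {x : Matrix n n ℂ} (h : x.PosSemidef) : 0 ≤ tr x := by
  have := h.trace_nonneg
  exact (Complex.le_def.1 this).1

lemma hs_smul_real (c : ℝ) (x : Matrix m n ℂ) : hs ((c : ℂ) • x) = c ^ 2 * hs x := by
  unfold hs
  simp only [Finset.mul_sum, Matrix.smul_apply, smul_eq_mul, norm_mul, mul_pow, Complex.norm_real,
    Real.norm_eq_abs, sq_abs]

lemma norm_add_sq_le (a b : ℂ) (t : ℝ) (ht : 0 < t) :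
    ‖a + b‖ ^ 2 ≤ (1 + t) * ‖a‖ ^ 2 + (1 + 1 / t) * ‖b‖ ^ 2 := by
  have h1 : ‖a + b‖ ≤ ‖a‖ + ‖b‖ := norm_add_le a b
  have h2 : ‖a + b‖ ^ 2 ≤ (‖a‖ + ‖b‖) ^ 2 := pow_le_pow_left₀ (norm_nonneg _) h1 2
  refine h2.trans ?_
  have h3 : 2 * (‖a‖ * ‖b‖) ≤ t * ‖a‖ ^ 2 + 1 / t * ‖b‖ ^ 2 := by
    have h4 : 0 ≤ (t * ‖a‖ - ‖b‖) ^ 2 / t := by positivity
    have h5 : (t * ‖a‖ - ‖b‖) ^ 2 / t = t * ‖a‖ ^ 2 + 1 / t * ‖b‖ ^ 2 - 2 * (‖a‖ * ‖b‖) := by
      field_simp
      ring
    linarith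
  nlinarith

lemma hs_add_le (x y : Matrix m n ℂ) (t : ℝ) (ht : 0 < t) :
    hs (x + y) ≤ (1 + t) * hs x + (1 + 1 / t) * hs y := by
  unfold hs
  simp only [Finset.mul_sum, ← Finset.sum_add_distrib, Matrix.add_apply]
  exact Finset.sum_le_sum fun i _ => Finset.sum_le_sum fun j _ => norm_add_sq_le _ _ t ht

lemma hs_add_le2 (x y : Matrix m n ℂ) : hs (x + y) ≤ 2 * hs x + 2 * hs y := by
  have := hs_add_le x y 1 one_pos
  norm_num at this
  exact this

lemma hs_neg (x : Matrix m n ℂ) : hs (-x) = hs x := by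
  unfold hs; simp

lemma hs_sub_comm (x y : Matrix m n ℂ) : hs (x - y) = hs (y - x) := by
  rw [← hs_neg, neg_sub]

lemma hs_sub_le2 (x y : Matrix m n ℂ) : hs (x - y) ≤ 2 * hs x + 2 * hs y := by
  have := hs_add_le2 x (-y)
  rwa [hs_neg, ← sub_eq_add_neg] at this

/-- Lower bound for the norm of a sum. -/
lemma hs_add_ge (x y : Matrix m n ℂ) (t : ℝ) (ht : 0 < t) :
    (1 - t) * hs x - 1 / t * hs y ≤ hs (x + y) := by
  unfold hs
  simp only [Finset.mul_sum, ← Finset.sum_sub_distrib, Matrix.add_apply]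
  refine Finset.sum_le_sum fun i _ => Finset.sum_le_sum fun j _ => ?_
  set a := x i j
  set b := y i j
  have h1 : ‖a‖ - ‖b‖ ≤ ‖a + b‖ := by
    have := norm_sub_le (a + b) b
    rw [add_sub_cancel_right] at this
    linarith
  have h1' : ‖b‖ - ‖a‖ ≤ ‖a + b‖ := by
    have := norm_sub_le (a + b) a
    rw [add_sub_cancel_left] at this
    linarith
  have h2 : (‖a‖ - ‖b‖) ^ 2 ≤ ‖a + b‖ ^ 2 := by
    apply sq_le_sq'
    · linarith
    · linarith
  have h3 : 2 * (‖a‖ * ‖b‖) ≤ t * ‖a‖ ^ 2 + 1 / t * ‖b‖ ^ 2 := by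
    have h4 : 0 ≤ (t * ‖a‖ - ‖b‖) ^ 2 / t := by positivity
    have h5 : (t * ‖a‖ - ‖b‖) ^ 2 / t = t * ‖a‖ ^ 2 + 1 / t * ‖b‖ ^ 2 - 2 * (‖a‖ * ‖b‖) := by
      field_simp
      ring
    linarith
  nlinarith [sq_nonneg ‖b‖]

lemma hs_add4 (a b c e : Matrix m n ℂ) :
    hs (a + b + c + e) ≤ 4 * (hs a + hs b + hs c + hs e) := by
  have h1 := hs_add_le2 (a + b) (c + e)
  have h2 := hs_add_le2 a b
  have h3 := hs_add_le2 c e
  rw [add_assoc (a + b)]
  linarith

lemma hs_split [DecidableEq n] (A : Matrix m n ℂ) {P : Matrix n n ℂ} (hP : IsPr P) :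
    hs A = hs (A * P) + hs (A * (1 - P)) := by
  have e1 : A * P * (A * P)ᴴ = A * P * Aᴴ := by
    rw [conjTranspose_mul, hP.1, ← Matrix.mul_assoc, Matrix.mul_assoc A P P, hP.2]
  have e2 : A * (1 - P) * (A * (1 - P))ᴴ = A * Aᴴ - A * P * Aᴴ := by
    rw [conjTranspose_mul, conjTranspose_sub, conjTranspose_one, hP.1, ← Matrix.mul_assoc,
      Matrix.mul_assoc A (1 - P) (1 - P)]
    have : (1 - P) * (1 - P) = 1 - P := by
      rw [Matrix.mul_sub, Matrix.sub_mul, Matrix.sub_mul, hP.2]; simp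
    rw [this, Matrix.mul_sub, Matrix.mul_one, Matrix.sub_mul]
  rw [hs_eq_tr' (A * P), hs_eq_tr' (A * (1 - P)), e1, e2, tr_sub, hs_eq_tr' A]
  ring

lemma hs_mul_le [DecidableEq n] (A : Matrix m n ℂ) (B : Matrix n k ℂ) (hB : IsPr (B * Bᴴ)) :
    hs (A * B) ≤ hs A := by
  have h1 : hs (A * B) = hs (A * (B * Bᴴ)) := by
    rw [hs_eq_tr', hs_eq_tr' (A * (B * Bᴴ))]
    congr 1
    have e : (B * Bᴴ) * (B * Bᴴ)ᴴ = B * Bᴴ := by rw [hB.1, hB.2]
    calc A * B * (A * B)ᴴ = A * (B * Bᴴ) * Aᴴ := by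
          rw [conjTranspose_mul]; simp only [Matrix.mul_assoc]
      _ = A * ((B * Bᴴ) * (B * Bᴴ)ᴴ) * Aᴴ := by rw [e]
      _ = A * (B * Bᴴ) * (A * (B * Bᴴ))ᴴ := by
          rw [conjTranspose_mul A]; simp only [Matrix.mul_assoc]
  rw [h1, hs_split A hB]
  linarith [hs_nonneg (A * (1 - B * Bᴴ))]

lemma hs_mul_le' [DecidableEq n] (A : Matrix n m ℂ) (B : Matrix k n ℂ) (hB : IsPr (Bᴴ * B)) :
    hs (B * A) ≤ hs A := by
  rw [← hs_conjT, conjTranspose_mul, ← hs_conjT A]
  apply hs_mul_le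
  rw [conjTranspose_conjTranspose]
  exact hB

lemma isPr_one [DecidableEq n] : IsPr (1 : Matrix n n ℂ) := ⟨conjTranspose_one, Matrix.one_mul _⟩

lemma isPr_hs {P : Matrix n n ℂ} (h : IsPr P) : hs P = tr P := by
  rw [hs_eq_tr, h.1, h.2]

lemma isPr_psd [DecidableEq n] {P : Matrix n n ℂ} (h : IsPr P) : P.PosSemidef := by
  have := Matrix.posSemidef_conjTranspose_mul_self P
  rwa [h.1, h.2] at this

lemma isPr_compl [DecidableEq n] {P : Matrix n n ℂ} (h : IsPr P) : IsPr (1 - P) := by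
  refine ⟨by rw [conjTranspose_sub, conjTranspose_one, h.1], ?_⟩
  rw [Matrix.mul_sub, Matrix.sub_mul, Matrix.sub_mul, h.2]; simp

end basic

/-- An orthonormal basis of the range of a projection. -/
lemma exists_basis {d : ℕ} (q : Mt d) (hq : IsPr q) :
    ∃ (r : ℕ) (b : Matrix (Fin d) (Fin r) ℂ), bᴴ * b = 1 ∧ b * bᴴ = q ∧ tr q = r := by
  have hH : q.IsHermitian := hq.1
  set U : Mt d := (hH.eigenvectorUnitary : Mt d) with hU
  have hUU : Uᴴ * U = 1 := by
    have := (Matrix.mem_unitaryGroup_iff').1 hH.eigenvectorUnitary.2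
    exact this
  have hspec := hH.spectral_theorem
  have hev : ∀ i, hH.eigenvalues i = 0 ∨ hH.eigenvalues i = 1 := by
    intro i
    have h1 := hH.mulVec_eigenvectorBasis i
    have h2 : q *ᵥ (q *ᵥ ⇑(hH.eigenvectorBasis i)) = q *ᵥ ⇑(hH.eigenvectorBasis i) := by
      rw [Matrix.mulVec_mulVec, hq.2]
    rw [h1, Matrix.mulVec_smul, h1, smul_smul] at h2
    have h3 : hH.eigenvectorBasis i ≠ 0 := hH.eigenvectorBasis.toBasis.ne_zero i |> fun h => by
      simpa using h
    have h4 : (⇑(hH.eigenvectorBasis i) : Fin d → ℂ) ≠ 0 := by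
      intro h
      apply h3
      ext j
      exact congrFun h j
    obtain ⟨j, hj⟩ := Function.ne_iff.1 h4
    have h5 := congrFun h2 j
    simp only [Pi.smul_apply, Complex.real_smul] at h5
    have h6 := mul_right_cancel₀ hj h5
    have h7 : hH.eigenvalues i * hH.eigenvalues i = hH.eigenvalues i := by exact_mod_cast h6
    rcases eq_or_ne (hH.eigenvalues i) 0 with h | h
    · exact Or.inl h
    · exact Or.inr (mul_right_cancel₀ h (by rw [h7, one_mul]))
  classical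
  let s := {i : Fin d // hH.eigenvalues i = 1}
  let e : Fin (Fintype.card s) ≃ s := (Fintype.equivFin s).symm
  let b : Matrix (Fin d) (Fin (Fintype.card s)) ℂ := U.submatrix id (fun j => (e j : Fin d))
  have hbb : bᴴ * b = 1 := by
    ext i j
    have h1 : (bᴴ * b) i j = (Uᴴ * U) (e i) (e j) := by
      simp [b, Matrix.mul_apply]
    rw [h1, hUU, Matrix.one_apply, Matrix.one_apply]
    congr 1
    simp only [eq_iff_iff]
    constructor
    · intro h; exact e.injective (Subtype.ext h)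
    · intro h; rw [h]
  have hb2 : b * bᴴ = q := by
    ext i j
    have h1 : (b * bᴴ) i j = ∑ t : s, U i t * star (U j t) := by
      simp only [b, Matrix.mul_apply, conjTranspose_apply, submatrix_apply, id]
      exact Equiv.sum_comp e (fun t : s => U i t * star (U j t))
    have hspec' : q = U * diagonal (fun t => (hH.eigenvalues t : ℂ)) * Uᴴ := by
      have := hspec
      rw [Unitary.conjStarAlgAut_apply] at this
      exact this
    have h2 : q i j = ∑ t : Fin d, (hH.eigenvalues t : ℂ) * (U i t * star (U j t)) := by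
      have h2' := congrFun (congrFun hspec' i) j
      rw [h2', Matrix.mul_apply]
      refine Finset.sum_congr rfl fun t _ => ?_
      rw [Matrix.mul_diagonal, conjTranspose_apply]
      ring
    rw [h1, h2]
    have h3 : ∑ t : Fin d, (hH.eigenvalues t : ℂ) * (U i t * star (U j t))
        = ∑ t ∈ Finset.univ.filter (fun t => hH.eigenvalues t = 1), U i t * star (U j t) := by
      rw [Finset.sum_filter]
      refine Finset.sum_congr rfl fun t _ => ?_
      rcases hev t with h | h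
      · rw [if_neg (by rw [h]; norm_num), h]; simp
      · rw [if_pos h, h]; simp
    rw [h3]
    exact (Finset.sum_subtype (Finset.univ.filter (fun t => hH.eigenvalues t = 1))
      (by simp) (fun t => U i t * star (U j t))).symm
  refine ⟨Fintype.card s, b, hbb, hb2, ?_⟩
  have h9 : tr (b * bᴴ) = Fintype.card s := by
    rw [tr_mul_comm, hbb, tr_one, Fintype.card_fin]
  rwa [hb2] at h9

end Pool.Agent.W638.RC0
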