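import Pool.Agent.W638.RC.AS0a

/-!
# Project RC, part AS0: blocks and the estimates for one block
-/

set_option autoImplicit false

namespace Pool.Agent.W638.RC0

open Matrix Pool.Agent.W661.RC
open scoped ComplexOrder

section blocks

variable {d : ℕ} {I K : Type} {c : I → K} {l : K → ℕ}

/-- The block of columns with first index `i`. -/
def blk (M : Matrix (Fin d) (Jx c l) ℂ) (i : I) : Matrix (Fin d) (Fin (l (c i))) ℂ :=
  fun a j => M a ⟨i, j⟩

lemma hs_blk [Fintype I] (M : Matrix (Fin d) (Jx c l) ℂ) : hs M = ∑ i, hs (blk M i) := by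
  unfold hs blk
  have h : ∀ a : Fin d, ∑ x : Jx c l, ‖M a x‖ ^ 2 = ∑ i, ∑ j, ‖M a ⟨i, j⟩‖ ^ 2 :=
    fun a => Fintype.sum_sigma _
  simp only [h]
  exact Finset.sum_comm

lemma blk_mul_left [Fintype I] (u : Mt d) (M : Matrix (Fin d) (Jx c l) ℂ) (i : I) :
    blk (u * M) i = u * blk M i := by
  ext a j
  simp [blk, Matrix.mul_apply]

lemma blk_sub (M N : Matrix (Fin d) (Jx c l) ℂ) (i : I) :
    blk (M - N) i = blk M i - blk N i := rfl

lemma blk_mul_Ut [Fintype I] [DecidableEq I] (b : (κ : K) → Matrix (Fin d) (Fin (l κ)) ℂ)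
    (M : Matrix (Fin d) (Jx c l) ℂ) (u : Mt d) (i : I) :
    blk (M * Ut c l b u) i = blk M i * ((b (c i))ᴴ * u * b (c i)) := by
  ext a j
  simp only [blk, Matrix.mul_apply (M := M), Ut]
  rw [Fintype.sum_sigma, Finset.sum_eq_single i]
  · simp only [if_true]
    rw [Matrix.mul_apply]
    rfl
  · intro i' _ hi'
    simp [hi']
  · intro h; exact absurd (Finset.mem_univ i) h

lemma Ut_conjT [DecidableEq I] (b : (κ : K) → Matrix (Fin d) (Fin (l κ)) ℂ) (u : Mt d) :
    (Ut c l b u)ᴴ = Ut c l b uᴴ := by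
  ext x y
  rw [conjTranspose_apply]
  unfold Ut
  by_cases h : y.1 = x.1
  · rw [if_pos h, if_pos h.symm]
    have : ((b (c y.1))ᴴ * u * b (c x.1))ᴴ = (b (c x.1))ᴴ * uᴴ * b (c y.1) := by
      rw [conjTranspose_mul, conjTranspose_mul, conjTranspose_conjTranspose, Matrix.mul_assoc]
    rw [← this, conjTranspose_apply]
  · rw [if_neg h, if_neg (Ne.symm h), star_zero]

end blocks

section one

variable {d r : ℕ}

/-- Estimate (6). -/
lemma est6 (w q : Mt d) (b : Matrix (Fin d) (Fin r) ℂ) (hw : w * wᴴ = 1) (hw' : wᴴ * w = 1)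
    (hq : IsPr q) (hb : bᴴ * b = 1) (hqb : q * b = b) :
    hs (w * b - b * (bᴴ * w * b)) ≤ 2 * hs (w * q - q * w) + 2 * (tr q - r) := by
  set p : Mt d := b * bᴴ with hp
  have hpP : IsPr p := by
    refine ⟨by rw [hp, conjTranspose_mul, conjTranspose_conjTranspose], ?_⟩
    rw [hp, Matrix.mul_assoc b, ← Matrix.mul_assoc bᴴ, hb, Matrix.one_mul]
  have hqp : q * p = p := by rw [hp, ← Matrix.mul_assoc, hqb]
  have hpq : p * q = p := by
    have := congrArg conjTranspose hqp
    rwa [conjTranspose_mul, hq.1, hpP.1] at this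
  have hqpP : IsPr (q - p) := by
    refine ⟨by rw [conjTranspose_sub, hq.1, hpP.1], ?_⟩
    rw [Matrix.sub_mul, Matrix.mul_sub, Matrix.mul_sub, hq.2, hqp, hpq, hpP.2]
    simp
  have htr : tr p = r := by rw [hp, tr_mul_comm, hb, tr_one, Fintype.card_fin]
  have e1 : w * b - b * (bᴴ * w * b) = (1 - q) * (w * q - q * w) * b + (q - p) * (w * b) := by
    have h1 : (1 - q) * (w * q - q * w) * b = (1 - q) * w * b := by
      have : (1 - q) * (w * q - q * w) = (1 - q) * w * q := by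
        rw [Matrix.mul_sub, ← Matrix.mul_assoc, ← Matrix.mul_assoc, Matrix.sub_mul 1 q q, hq.2]
        simp
      rw [this, Matrix.mul_assoc _ q b, hqb]
    rw [h1, hp]
    simp only [Matrix.sub_mul, Matrix.one_mul, Matrix.mul_assoc]
    abel
  have hwb : IsPr ((w * b) * (w * b)ᴴ) := by
    have : (w * b) * (w * b)ᴴ = w * p * wᴴ := by
      rw [conjTranspose_mul]; simp only [hp, Matrix.mul_assoc]
    rw [this]
    refine ⟨by
      rw [conjTranspose_mul (w * p), conjTranspose_mul w p, conjTranspose_conjTranspose, hpP.1]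
      exact (Matrix.mul_assoc w p wᴴ).symm, ?_⟩
    calc w * p * wᴴ * (w * p * wᴴ) = w * p * (wᴴ * w) * p * wᴴ := by
          simp only [Matrix.mul_assoc]
      _ = w * (p * p) * wᴴ := by rw [hw', Matrix.mul_one]; simp only [Matrix.mul_assoc]
      _ = _ := by rw [hpP.2]
  have hbP : IsPr (b * bᴴ) := hpP
  rw [e1]
  refine (hs_add_le2 _ _).trans ?_
  have h2 : hs ((1 - q) * (w * q - q * w) * b) ≤ hs (w * q - q * w) := by
    refine (hs_mul_le _ b hbP).trans ?_
    apply hs_mul_le'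
    have := isPr_compl hq
    rw [this.1, this.2]
    exact this
  have h3 : hs ((q - p) * (w * b)) ≤ tr q - r := by
    refine (hs_mul_le _ _ hwb).trans ?_
    rw [isPr_hs hqpP, tr_sub, htr]
  linarith

/-- Estimate (5). -/
lemma est5 (w q v : Mt d) (b θ : Matrix (Fin d) (Fin r) ℂ) (hw : w * wᴴ = 1) (hw' : wᴴ * w = 1)
    (hq : IsPr q) (hv : vᴴ * v = q) (hb : bᴴ * b = 1) (hqb : q * b = b) :
    hs (w * θ - θ * (bᴴ * w * b))
      ≤ 4 * (2 * hs (θ - v * b) + hs (w * v - v * w) + (tr q - r)) := by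
  set p : Mt d := b * bᴴ with hp
  have hpP : IsPr p := by
    refine ⟨by rw [hp, conjTranspose_mul, conjTranspose_conjTranspose], ?_⟩
    rw [hp, Matrix.mul_assoc b, ← Matrix.mul_assoc bᴴ, hb, Matrix.one_mul]
  have hqp : q * p = p := by rw [hp, ← Matrix.mul_assoc, hqb]
  have hpq : p * q = p := by
    have := congrArg conjTranspose hqp
    rwa [conjTranspose_mul, hq.1, hpP.1] at this
  have hqpP : IsPr (q - p) := by
    refine ⟨by rw [conjTranspose_sub, hq.1, hpP.1], ?_⟩
    rw [Matrix.sub_mul, Matrix.mul_sub, Matrix.mul_sub, hq.2, hqp, hpq, hpP.2]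
    simp
  have htr : tr p = r := by rw [hp, tr_mul_comm, hb, tr_one, Fintype.card_fin]
  have hvq : v * q = v := by
    have h1 : (v - v * q)ᴴ * (v - v * q) = 0 := by
      rw [conjTranspose_sub, conjTranspose_mul, hq.1, Matrix.sub_mul, Matrix.mul_sub,
        Matrix.mul_sub, ← Matrix.mul_assoc, hv, Matrix.mul_assoc q, hv, hq.2,
        ← Matrix.mul_assoc, Matrix.mul_assoc q vᴴ v, hv, hq.2, hq.2]
      simp
    have h2 : v - v * q = 0 := by
      exact Matrix.conjTranspose_mul_self_eq_zero.1 h1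
    exact (sub_eq_zero.1 h2).symm
  have hwb : IsPr ((w * b) * (w * b)ᴴ) := by
    have : (w * b) * (w * b)ᴴ = w * p * wᴴ := by
      rw [conjTranspose_mul]; simp only [hp, Matrix.mul_assoc]
    rw [this]
    refine ⟨by
      rw [conjTranspose_mul (w * p), conjTranspose_mul w p, conjTranspose_conjTranspose, hpP.1]
      exact (Matrix.mul_assoc w p wᴴ).symm, ?_⟩
    calc w * p * wᴴ * (w * p * wᴴ) = w * p * (wᴴ * w) * p * wᴴ := by
          simp only [Matrix.mul_assoc]
      _ = w * (p * p) * wᴴ := by rw [hw', Matrix.mul_one]; simp only [Matrix.mul_assoc]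
      _ = _ := by rw [hpP.2]
  have e1 : w * θ - θ * (bᴴ * w * b) = w * (θ - v * b) + (-((θ - v * b) * (bᴴ * w * b)))
      + (w * v - v * w) * b + v * ((q - p) * (w * b)) := by
    have h1 : v * ((q - p) * (w * b)) = v * w * b - v * b * (bᴴ * w * b) := by
      rw [Matrix.sub_mul, Matrix.mul_sub, ← Matrix.mul_assoc v q, hvq, hp]
      simp only [Matrix.mul_assoc]
    rw [h1]
    simp only [Matrix.mul_sub, Matrix.sub_mul, Matrix.mul_assoc]
    abel
  rw [e1]
  refine (hs_add4 _ _ _ _).trans ?_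
  have h1 : hs (w * (θ - v * b)) ≤ hs (θ - v * b) := by
    apply hs_mul_le'
    rw [hw']; exact isPr_one
  have h2 : hs (-((θ - v * b) * (bᴴ * w * b))) ≤ hs (θ - v * b) := by
    rw [hs_neg, ← Matrix.mul_assoc]
    refine (hs_mul_le _ b hpP).trans ?_
    rw [← Matrix.mul_assoc]
    refine (hs_mul_le _ w (by rw [hw]; exact isPr_one)).trans ?_
    apply hs_mul_le
    rw [conjTranspose_conjTranspose, hb]; exact isPr_one
  have h3 : hs ((w * v - v * w) * b) ≤ hs (w * v - v * w) := hs_mul_le _ b hpP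
  have h4 : hs (v * ((q - p) * (w * b))) ≤ tr q - r := by
    refine (hs_mul_le' _ v (by rw [hv]; exact hq)).trans ?_
    refine (hs_mul_le _ _ hwb).trans ?_
    rw [isPr_hs hqpP, tr_sub, htr]
  linarith

lemma hs_comm_conj (u v : Mt d) (hu : uᴴ * u = 1) (hu' : u * uᴴ = 1) :
    hs (uᴴ * v - v * uᴴ) = hs (u * v - v * u) := by
  have h1 : hs (uᴴ * v - v * uᴴ) ≤ hs (u * v - v * u) := by
    have e : uᴴ * v - v * uᴴ = uᴴ * (-(u * v - v * u)) * uᴴ := by
      rw [Matrix.mul_neg, Matrix.neg_mul, Matrix.mul_sub, Matrix.sub_mul, ← Matrix.mul_assoc, hu,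
        Matrix.one_mul, ← Matrix.mul_assoc, Matrix.mul_assoc (uᴴ * v), hu', Matrix.mul_one]
      abel
    rw [e]
    refine (hs_mul_le _ uᴴ (by rw [conjTranspose_conjTranspose, hu]; exact isPr_one)).trans ?_
    refine (hs_mul_le' _ uᴴ (by rw [conjTranspose_conjTranspose, hu']; exact isPr_one)).trans ?_
    rw [hs_neg]
  have h2 : hs (u * v - v * u) ≤ hs (uᴴ * v - v * uᴴ) := by
    have e : u * v - v * u = u * (-(uᴴ * v - v * uᴴ)) * u := by
      rw [Matrix.mul_neg, Matrix.neg_mul, Matrix.mul_sub, Matrix.sub_mul, ← Matrix.mul_assoc, hu',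
        Matrix.one_mul, ← Matrix.mul_assoc, Matrix.mul_assoc (u * v), hu, Matrix.mul_one]
      abel
    conv_lhs => rw [e]
    refine (hs_mul_le _ u (by rw [hu']; exact isPr_one)).trans ?_
    refine (hs_mul_le' _ u (by rw [hu]; exact isPr_one)).trans ?_
    rw [hs_neg]
  exact le_antisymm h1 h2

end one

end Pool.Agent.W638.RC0
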